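import Pool.Agent.U541.PB.Group

set_option autoImplicit false

/-!
# Gluing to the lifts of one circle: the chain relations with arbitrary pieces

`Solid Y l`: in every action of the group `Y` by order automorphisms on a linear order, every fixed
point of `l` is a fixed point of `Y`.
-/

namespace Pool.Agent.U541.SP

open Pool.Agent.W705.Borr Pool.Agent.TH821.Chain Pool.Agent.U541.PB Pool.Agent.TH821.Cyc

/-- In every action of `Y` by order automorphisms on a linear order, every fixed point of `l` is a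
fixed point of `Y`. -/
def Solid (Y : Type) [Group Y] (l : Y) : Prop :=
  ∀ (Ω : Type) [LinearOrder Ω] (ρ : Y →* (Ω ≃o Ω)) (v : Ω), ρ l v = v → ∀ g, ρ g v = v

section lemmas
variable {Ω : Type} [LinearOrder Ω]

theorem up_pow {t : Ω ≃o Ω} {v : Ω} (h : v < t v) (k : ℕ) : v < (t ^ (k + 1)) v := by
  induction k with
  | zero => simpa using h
  | succ k ih =>
    rw [pow_succ']
    show v < t ((t ^ (k + 1)) v)
    exact h.trans ((t.lt_iff_lt).mpr ih)

theorem down_pow {t : Ω ≃o Ω} {v : Ω} (h : t v < v) (k : ℕ) : (t ^ (k + 1)) v < v := by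
  induction k with
  | zero => simpa using h
  | succ k ih =>
    rw [pow_succ']
    show t ((t ^ (k + 1)) v) < v
    exact ((t.lt_iff_lt).mpr ih).trans h

theorem fix_of_pow {t : Ω ≃o Ω} {v : Ω} {k : ℕ} (hk : 0 < k) (h : (t ^ k) v = v) : t v = v := by
  obtain ⟨k, rfl⟩ := Nat.exists_eq_add_of_le' hk
  rcases lt_trichotomy (t v) v with h1 | h1 | h1
  · exact absurd h (down_pow h1 k).ne
  · exact h1
  · exact absurd h (up_pow h1 k).ne'

/-- the stabilizer of a point -/
def stab {Y : Type} [Group Y] (ρ : Y →* (Ω ≃o Ω)) (v : Ω) : Subgroup Y where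
  carrier := {g | ρ g v = v}
  mul_mem' := by
    intro a b ha hb
    show ρ (a * b) v = v
    rw [map_mul]
    show ρ a (ρ b v) = v
    rw [show ρ b v = v from hb]; exact ha
  one_mem' := by
    show ρ 1 v = v
    rw [map_one]; rfl
  inv_mem' := by
    intro a ha
    show ρ a⁻¹ v = v
    rw [map_inv]
    show (ρ a).symm v = v
    rw [OrderIso.symm_apply_eq]; exact (show ρ a v = v from ha).symm

theorem mem_stab {Y : Type} [Group Y] (ρ : Y →* (Ω ≃o Ω)) (v : Ω) {g : Y} :
    g ∈ stab ρ v ↔ ρ g v = v := Iff.rfl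

theorem fix_of_zpow' {Y : Type} [Group Y] (ρ : Y →* (Ω ≃o Ω)) {v : Ω} {t : Y} {b : ℤ}
    (hb : b ≠ 0) (h : ρ (t ^ b) v = v) : ρ t v = v := by
  have h1 : t ^ b ∈ stab ρ v := h
  have h2 : t ^ b.natAbs ∈ stab ρ v := by
    rcases Int.natAbs_eq b with h4 | h4
    · rw [h4, zpow_natCast] at h1; exact h1
    · rw [h4, zpow_neg, zpow_natCast, inv_mem_iff] at h1; exact h1
  have h3 : ρ (t ^ b.natAbs) v = v := h2
  rw [map_pow] at h3
  exact fix_of_pow (by omega) h3

end lemmas

/-- solid tori whose longitude is not null-homotopic -/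
theorem solid_cyclic (Y : Type) [Group Y] (t : Y) (ht : Subgroup.closure {t} = ⊤) (b : ℤ)
    (hb : b ≠ 0) : Solid Y (t ^ b) := by
  intro Ω _ ρ v h g
  have h1 := fix_of_zpow' ρ hb h
  have h2 : (⊤ : Subgroup Y) ≤ stab ρ v := by
    rw [← ht, Subgroup.closure_le]
    rintro _ rfl
    exact h1
  exact h2 (Subgroup.mem_top g)

/-- The union of a product of a circle and a planar surface with pieces whose longitudes are the
fibres. -/
theorem solid_sum (Y : Type) [Group Y] (h : Y) {κ : Type} (Z : κ → Type) [∀ k, Group (Z k)]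
    (l : ∀ k, Z k) (hZ : ∀ k, Solid (Z k) (l k)) (j : ∀ k, Z k →* Y) (hj : ∀ k, j k (l k) = h)
    (hgen : Subgroup.zpowers h ⊔ ⨆ k, (j k).range = ⊤) : Solid Y h := by
  intro Ω _ ρ v hv g
  have h2 : (⊤ : Subgroup Y) ≤ stab ρ v := by
    rw [← hgen]
    refine sup_le ?_ (iSup_le fun k => ?_)
    · rw [Subgroup.zpowers_le]; exact hv
    · rintro _ ⟨z, rfl⟩
      refine hZ k Ω (ρ.comp (j k)) v ?_ z
      rw [MonoidHom.comp_apply, hj]; exact hv
  exact h2 (Subgroup.mem_top g)

section klein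
variable {Ω : Type} [LinearOrder Ω]

theorem comm_of_klein {G : Type*} [Group G] {a b : G} (h : a * b = b⁻¹ * a) :
    Commute (a ^ 2) b ∧ a * b⁻¹ = b * a ∧ a⁻¹ * b = b⁻¹ * a⁻¹ := by
  have h1 : a * b⁻¹ = b * a := by
    rw [mul_inv_eq_iff_eq_mul]
    calc a = b * (b⁻¹ * a) := by group
      _ = b * a * b := by rw [← h]; group
  refine ⟨?_, h1, ?_⟩
  · show a ^ 2 * b = b * a ^ 2
    calc a ^ 2 * b = a * (a * b) := by rw [pow_two, mul_assoc]
      _ = a * b⁻¹ * a := by rw [h]; group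
      _ = b * a ^ 2 := by rw [h1, pow_two, mul_assoc]
  · calc a⁻¹ * b = a⁻¹ * (b * a) * a⁻¹ := by group
      _ = a⁻¹ * (a * b⁻¹) * a⁻¹ := by rw [h1]
      _ = b⁻¹ * a⁻¹ := by group

theorem pow_up {t : Ω ≃o Ω} {v : Ω} (h : v ≤ t v) (k : ℕ) : v ≤ (t ^ k) v := by
  induction k with
  | zero => simp
  | succ k ih =>
    rw [pow_succ']
    show v ≤ t ((t ^ k) v)
    exact h.trans ((t.le_iff_le).mpr ih)

theorem klein_core {a b : Ω ≃o Ω} (h : a * b = b⁻¹ * a) {v : Ω} (hb : v < b v) (ha : v < a v)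
    {M : ℕ} (hM : 0 < M) (hc : Commute (a ^ M) b) (q : ℤ) : (a ^ M * b ^ q) v ≠ v := by
  intro hv
  have hpow : ∀ k : ℕ, a * b ^ k = (b ^ k)⁻¹ * a := by
    intro k
    induction k with
    | zero => simp
    | succ k ih =>
      calc a * b ^ (k + 1) = (a * b ^ k) * b := by rw [pow_succ, mul_assoc]
        _ = (b ^ k)⁻¹ * (a * b) := by rw [ih, mul_assoc]
        _ = (b ^ k)⁻¹ * b⁻¹ * a := by rw [h, mul_assoc]
        _ = (b ^ (k + 1))⁻¹ * a := by rw [pow_succ', mul_inv_rev]
  have c1 : ∀ k : ℕ, (b ^ k) v ≤ a v := by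
    intro k
    by_contra hcon
    rw [not_le] at hcon
    have h1 : ((b ^ k)⁻¹ * a) v < v := by
      show (b ^ k).symm (a v) < v
      rw [← (b ^ k).lt_iff_lt, OrderIso.apply_symm_apply]
      exact hcon
    rw [← hpow] at h1
    have h2 : a v ≤ (a * b ^ k) v := (a.le_iff_le).mpr (pow_up hb.le k)
    exact absurd (ha.trans_le (h2.trans h1.le)) (lt_irrefl _)
  have c2 : ∀ m : ℕ, a v ≤ (a ^ (m + 1)) v := by
    intro m
    rw [pow_succ']
    exact (a.le_iff_le).mpr (pow_up ha.le m)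
  obtain ⟨m, rfl⟩ := Nat.exists_eq_add_of_le' hM
  rcases Int.le_total 0 q with h0 | h0
  · obtain ⟨k, rfl⟩ := Int.eq_ofNat_of_zero_le h0
    have h1 : v ≤ (b ^ (k : ℤ)) v := by
      rw [zpow_natCast]; exact pow_up hb.le k
    have h2 : (a ^ (m + 1)) v ≤ (a ^ (m + 1) * b ^ (k : ℤ)) v :=
      ((a ^ (m + 1)).le_iff_le).mpr h1
    rw [hv] at h2
    exact absurd (ha.trans_le ((c2 m).trans h2)) (lt_irrefl _)
  · obtain ⟨k, hk⟩ := Int.eq_ofNat_of_zero_le (neg_nonneg.mpr h0)
    have hq : q = -(k : ℤ) := by omega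
    subst hq
    have h1 : (a ^ (m + 1) * b ^ (-(k : ℤ))) = b ^ (-(k : ℤ)) * a ^ (m + 1) :=
      (hc.zpow_right _).eq
    rw [h1, zpow_neg, zpow_natCast] at hv
    have h2 : (a ^ (m + 1)) v = (b ^ k) v := by
      have h3 : (b ^ k).symm ((a ^ (m + 1)) v) = v := hv
      rw [OrderIso.symm_apply_eq] at h3
      exact h3
    have h4 : (b ^ k) v < (b ^ (k + 1)) v := by
      rw [pow_succ]
      exact ((b ^ k).lt_iff_lt).mpr hb
    have h5 := (c1 (k + 1)).trans (c2 m)
    rw [h2] at h5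
    exact absurd (h4.trans_le h5) (lt_irrefl _)

theorem klein_not_up {a b : Ω ≃o Ω} (h : a * b = b⁻¹ * a) {v : Ω} {p : ℕ} (hp : 0 < p) (q : ℤ)
    (hv : (a ^ (2 * p) * b ^ q) v = v) : ¬ v < b v := by
  intro hb
  obtain ⟨h1, -, h3⟩ := comm_of_klein h
  have hc : Commute (a ^ (2 * p)) b := by rw [pow_mul]; exact h1.pow_left p
  rcases lt_trichotomy (a v) v with ha | ha | ha
  · have h4 : a⁻¹ * b = b⁻¹ * a⁻¹ := h3
    have ha' : v < a⁻¹ v := by
      show v < a.symm v
      rw [← a.lt_iff_lt, OrderIso.apply_symm_apply]; exact ha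
    have hc' : Commute (a⁻¹ ^ (2 * p)) b := by rw [inv_pow]; exact hc.inv_left
    refine klein_core h4 hb ha' (by omega : 0 < 2 * p) hc' (-q) ?_
    have h5 : a⁻¹ ^ (2 * p) * b ^ (-q) = (a ^ (2 * p) * b ^ q)⁻¹ := by
      rw [mul_inv_rev, zpow_neg, inv_pow]
      exact ((hc.zpow_right q).inv_inv).eq
    rw [h5]
    show (a ^ (2 * p) * b ^ q).symm v = v
    rw [OrderIso.symm_apply_eq]; exact hv.symm
  · have h4 : (a * b) v = (b⁻¹ * a) v := by rw [h]
    have h5 : v < a (b v) := by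
      conv_lhs => rw [← ha]
      exact (a.lt_iff_lt).mpr hb
    have h6 : b.symm (a v) < v := by
      rw [ha, ← b.lt_iff_lt, OrderIso.apply_symm_apply]; exact hb
    exact absurd (h5.trans (lt_of_eq_of_lt h4 h6)) (lt_irrefl _)
  · exact klein_core h hb ha (by omega : 0 < 2 * p) hc q hv

theorem klein_fix {a b : Ω ≃o Ω} (h : a * b = b⁻¹ * a) {v : Ω} {p : ℕ} (hp : 0 < p) (q : ℤ)
    (hv : (a ^ (2 * p) * b ^ q) v = v) : b v = v ∧ a v = v := by
  obtain ⟨h1, h2, -⟩ := comm_of_klein h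
  have hb : b v = v := by
    rcases lt_trichotomy (b v) v with h3 | h3 | h3
    · exfalso
      refine klein_not_up (a := a) (b := b⁻¹) (by rw [inv_inv]; exact h2) hp (-q) (v := v) ?_ ?_
      · rw [inv_zpow, zpow_neg, inv_inv]; exact hv
      · show v < b.symm v
        rw [← b.lt_iff_lt, OrderIso.apply_symm_apply]; exact h3
    · exact h3
    · exact absurd h3 (klein_not_up h hp q hv)
  refine ⟨hb, ?_⟩
  have hbq : (b ^ q) v = v := by
    have hid : b ∈ stab (MonoidHom.id (Ω ≃o Ω)) v := hb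
    exact zpow_mem hid q
  have h3 : (a ^ (2 * p)) ((b ^ q) v) = v := hv
  rw [hbq] at h3
  exact fix_of_pow (by omega : 0 < 2 * p) h3

end klein

/-- The twisted `I`-bundle over the Klein bottle: every peripheral slope other than the rational
longitude `b`. -/
theorem solid_klein (Y : Type) [Group Y] (a b : Y) (hgen : Subgroup.closure {a, b} = ⊤)
    (h : a * b = b⁻¹ * a) (p q : ℤ) (hp : p ≠ 0) : Solid Y (a ^ (2 * p) * b ^ q) := by
  intro Ω _ ρ v hv g
  have hρ : ρ a * ρ b = (ρ b)⁻¹ * ρ a := by rw [← map_mul, h, map_mul, map_inv]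
  have hc : Commute (a ^ 2) b := (comm_of_klein h).1
  have key : ρ b v = v ∧ ρ a v = v := by
    rcases lt_or_gt_of_ne hp with hp | hp
    · obtain ⟨k, hk⟩ := Int.eq_ofNat_of_zero_le (neg_nonneg.mpr hp.le)
      have hpk : p = -(k : ℤ) := by omega
      refine klein_fix hρ (p := k) (by omega) (-q) ?_
      have h1 : (ρ (a ^ (2 * p) * b ^ q))⁻¹ v = v := by
        show (ρ (a ^ (2 * p) * b ^ q)).symm v = v
        rw [OrderIso.symm_apply_eq]; exact hv.symm
      rw [← map_inv] at h1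
      have h2 : (a ^ (2 * p) * b ^ q)⁻¹ = a ^ (2 * k) * b ^ (-q) := by
        have e : a ^ (2 * p) = (a ^ (2 * k))⁻¹ := by
          rw [hpk, ← zpow_natCast, ← zpow_neg]; congr 1; push_cast; ring
        have h3 : Commute (a ^ (2 * k)) (b ^ q) := by
          rw [pow_mul]; exact (hc.pow_left k).zpow_right q
        rw [e, mul_inv_rev, inv_inv, zpow_neg]
        exact h3.symm.inv_left.eq
      rw [h2, map_mul, map_pow, map_zpow] at h1
      exact h1
    · obtain ⟨k, hk⟩ := Int.eq_ofNat_of_zero_le hp.le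
      refine klein_fix hρ (p := k) (by omega) q ?_
      have h2 : a ^ (2 * p) = a ^ (2 * k) := by
        rw [hk, ← zpow_natCast]; congr 1
      rw [h2, map_mul, map_pow, map_zpow] at hv
      exact hv
  have h2 : (⊤ : Subgroup Y) ≤ stab ρ v := by
    rw [← hgen, Subgroup.closure_le]
    rintro _ (rfl | rfl)
    · exact key.2
    · exact key.1
  exact h2 (Subgroup.mem_top g)

section act
variable {H : Type} [Group H] [LinearOrder H] (hinv : ∀ a b c : H, a ≤ b ↔ c * a ≤ c * b)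

/-- The action of the group `Y` on the lower sets of a left-ordered group `H`. -/
noncomputable def actHom {Y : Type} [Group Y] (k : Y →* H) : Y →* (LowerSet H ≃o LowerSet H) where
  toFun y := act hinv (k y)
  map_one' := by
    apply OrderIso.ext
    funext u
    rw [map_one, act_one]; rfl
  map_mul' x y := by
    apply OrderIso.ext
    funext u
    rw [map_mul, act_mul]; rfl

include hinv in
/-- In a left-ordered group the chain relations force triviality. -/
theorem chain_trivial {n : ℕ} (hn : 0 < n) {c D f : ZMod n → H}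
    (A : ∀ i, c i = c (i + 1) * ((D (i + 1))⁻¹ * c (i + 1) * D (i + 1)))
    (B : ∀ i, D (i + 1) = f i * D i * (c i)⁻¹ * D i)
    (F : ∀ i v, act hinv (c i) v = v → act hinv (f i) v = v) (i : ZMod n) :
    c i = 1 ∧ D i = 1 := by
  have hs : Sys (fun i => act hinv (c i)) (fun i => act hinv (D i)) (fun i => act hinv (f i)) := by
    refine ⟨?_, ?_, F⟩
    · intro i v
      show act hinv (c (i + 1)) ((act hinv (D (i + 1))).symm
        (act hinv (c (i + 1)) (act hinv (D (i + 1)) v))) = act hinv (c i) v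
      rw [A i, ← act_inv]
      simp only [act_mul]
    · intro i v
      show act hinv (f i) (act hinv (D i) ((act hinv (c i)).symm (act hinv (D i) v)))
        = act hinv (D (i + 1)) v
      rw [B i, ← act_inv]
      simp only [act_mul]
  exact ⟨eq_one_of_act hinv _ fun v => (Pool.Agent.TH821.Chain.trivial hs hn i v).1,
    eq_one_of_act hinv _ fun v => (Pool.Agent.TH821.Chain.trivial hs hn i v).2⟩

include hinv in
/-- **Homomorphisms from the kernel of `d` to a left-ordered group** which extend to the groups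
`Y i` of pieces glued to the lifts of the circle with meridian `c` and longitude `(X V)⁻¹`. -/
theorem hom_trivial {G : Type} [Group G] {n : ℕ} (hn : 0 < n) {s X V c : G} (hs : s ^ n = 1)
    (hgen : Subgroup.closure (insert s {X, V, c}) = ⊤)
    (d : G →* Multiplicative (ZMod n)) (ds : d s = Multiplicative.ofAdd 1) (dX : d X = 1)
    (dV : d V = 1) (dc : d c = 1) (kc : Commute (X * V)⁻¹ c)
    (A : s * (X * X * (V * V)) * s⁻¹ = X * X * (V * V) * (X * V)⁻¹)
    (B : s * (V⁻¹ * c⁻¹) * s⁻¹ = X * V⁻¹ * c⁻¹)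
    (φ : d.ker →* H) (Y : ZMod n → Type) [∀ i, Group (Y i)] (m l : ∀ i, Y i)
    (hY : ∀ i, Solid (Y i) (l i)) (k : ∀ i, Y i →* H)
    (hm : ∀ i, φ (kch d s i ⟨c, dc⟩) = k i (m i))
    (hl : ∀ i, φ (kch d s i (⟨X, dX⟩ * ⟨V, dV⟩)⁻¹) = k i (l i)) :
    (∀ y : d.ker, φ y = 1) ∧ ∀ i y, k i y = 1 := by
  set X' : d.ker := ⟨X, dX⟩ with hX'
  set V' : d.ker := ⟨V, dV⟩ with hV'
  set C' : d.ker := ⟨c, dc⟩ with hC'
  have K' : Commute (X' * V')⁻¹ C' := Subtype.ext kc.eq
  have K2 : Commute (X * V) c := by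
    have := kc.inv_left; rwa [inv_inv] at this
  have key : ∀ (i : ZMod n) (x y : d.ker), s * x.1 * s⁻¹ = y.1 →
      φ (kch d s (i + 1) x) = φ (kch d s i y) := by
    intro i x y hxy
    rw [kch_succ hn d hs i x y hxy]
  set cc : d.ker := X' * (X' * V') * X'⁻¹ with hcc
  set DD : d.ker := X' * (X' * V') * C'⁻¹ with hDD
  set FF : d.ker := X' * C' * (X' * V')⁻¹ * X'⁻¹ with hFF
  -- the two relations
  have A1 : ∀ i, φ (kch d s i cc) =
      φ (kch d s (i + 1) cc) * ((φ (kch d s (i + 1) DD))⁻¹ * φ (kch d s (i + 1) cc) *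
        φ (kch d s (i + 1) DD)) := by
    intro i
    rw [← map_inv φ, ← map_mul φ, ← map_mul φ, ← map_mul φ, ← map_inv (kch d s (i + 1)),
      ← map_mul (kch d s (i + 1)), ← map_mul (kch d s (i + 1)), ← map_mul (kch d s (i + 1))]
    symm
    apply key
    show s * (X * (X * V) * X⁻¹ * ((X * (X * V) * c⁻¹)⁻¹ * (X * (X * V) * X⁻¹) *
      (X * (X * V) * c⁻¹))) * s⁻¹ = X * (X * V) * X⁻¹
    have e1 : (X * (X * V) * c⁻¹)⁻¹ * (X * (X * V) * X⁻¹) * (X * (X * V) * c⁻¹) = X * V := by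
      calc (X * (X * V) * c⁻¹)⁻¹ * (X * (X * V) * X⁻¹) * (X * (X * V) * c⁻¹)
          = c * (X * V) * c⁻¹ := by group
        _ = X * V := by rw [← K2.eq]; group
    rw [e1]
    calc s * (X * (X * V) * X⁻¹ * (X * V)) * s⁻¹ = s * (X * X * (V * V)) * s⁻¹ := by group
      _ = X * X * (V * V) * (X * V)⁻¹ := A
      _ = _ := by group
  have B1 : ∀ i, φ (kch d s (i + 1) DD) =
      φ (kch d s i FF) * φ (kch d s i DD) * (φ (kch d s i cc))⁻¹ * φ (kch d s i DD) := by
    intro i
    rw [← map_inv φ, ← map_mul φ, ← map_mul φ, ← map_mul φ, ← map_inv (kch d s i),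
      ← map_mul (kch d s i), ← map_mul (kch d s i), ← map_mul (kch d s i)]
    apply key
    show s * (X * (X * V) * c⁻¹) * s⁻¹ = X * c * (X * V)⁻¹ * X⁻¹ * (X * (X * V) * c⁻¹) *
      (X * (X * V) * X⁻¹)⁻¹ * (X * (X * V) * c⁻¹)
    calc s * (X * (X * V) * c⁻¹) * s⁻¹
        = (s * (X * X * (V * V)) * s⁻¹) * (s * (V⁻¹ * c⁻¹) * s⁻¹) := by group
      _ = X * X * (V * V) * (X * V)⁻¹ * (X * V⁻¹ * c⁻¹) := by rw [A, B]
      _ = X * X * c⁻¹ := by group
      _ = _ := by group
  -- fixed points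
  have F1 : ∀ i v, act hinv (φ (kch d s i cc)) v = v → act hinv (φ (kch d s i FF)) v = v := by
    intro i v hv
    set x := φ (kch d s i X') with hx
    set w := φ (kch d s i (X' * V')⁻¹) with hw
    set z := φ (kch d s i C') with hz
    have e1 : φ (kch d s i cc) = x * w⁻¹ * x⁻¹ := by
      rw [hcc, hx, hw]
      simp only [map_mul, map_inv, mul_inv_rev, inv_inv]
    have e2 : φ (kch d s i FF) = x * (z * (w * x⁻¹)) := by
      rw [hFF, hx, hw, hz]
      simp only [map_mul, map_inv, mul_inv_rev, mul_assoc]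
    rw [e1] at hv
    set u := act hinv x⁻¹ v with hu
    have h1 : act hinv w u = u := by
      have h2 : act hinv (w * x⁻¹) (act hinv (x * w⁻¹ * x⁻¹) v) = act hinv (w * x⁻¹) v := by
        rw [hv]
      rw [← act_mul] at h2
      have e3 : w * x⁻¹ * (x * w⁻¹ * x⁻¹) = x⁻¹ := by group
      rw [e3, act_mul] at h2
      exact h2.symm
    have h2 : ∀ y, act hinv (k i y) u = u := by
      intro y
      refine hY i (LowerSet H) (actHom hinv (k i)) u ?_ y
      show act hinv (k i (l i)) u = u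
      rw [← hl i]; exact h1
    rw [e2, act_mul, act_mul, act_mul, ← hu, h1, hz, hm i, h2, hu, ← act_mul, mul_inv_cancel,
      act_one]
  have triv : ∀ i, φ (kch d s i cc) = 1 ∧ φ (kch d s i DD) = 1 := fun i =>
    chain_trivial hinv hn (c := fun i => φ (kch d s i cc)) (D := fun i => φ (kch d s i DD))
      (f := fun i => φ (kch d s i FF)) A1 B1 F1 i
  have tw : ∀ i, φ (kch d s i (X' * V')⁻¹) = 1 := by
    intro i
    have h1 := (triv i).1
    have e1 : φ (kch d s i cc) = φ (kch d s i X') * (φ (kch d s i (X' * V')⁻¹))⁻¹ *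
        (φ (kch d s i X'))⁻¹ := by
      rw [hcc]
      simp only [map_mul, map_inv, mul_inv_rev, inv_inv]
    rw [e1] at h1
    have h2 : (φ (kch d s i (X' * V')⁻¹))⁻¹ = 1 := by
      calc _ = (φ (kch d s i X'))⁻¹ * (φ (kch d s i X') * (φ (kch d s i (X' * V')⁻¹))⁻¹ *
        (φ (kch d s i X'))⁻¹) * φ (kch d s i X') := by group
        _ = 1 := by rw [h1]; group
    exact inv_eq_one.mp h2
  have tk : ∀ i y, k i y = 1 := by
    intro i y
    apply eq_one_of_act hinv
    intro v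
    refine hY i (LowerSet H) (actHom hinv (k i)) v ?_ y
    show act hinv (k i (l i)) v = v
    rw [← hl i, tw i, act_one]
  have tc : ∀ i, φ (kch d s i C') = 1 := fun i => by rw [hm i, tk]
  have tX : ∀ i, φ (kch d s i X') = 1 := by
    intro i
    have h1 := (triv i).2
    have e1 : φ (kch d s i DD) = φ (kch d s i X') * (φ (kch d s i (X' * V')⁻¹))⁻¹ *
        (φ (kch d s i C'))⁻¹ := by
      rw [hDD]
      simp only [map_mul, map_inv, mul_inv_rev, inv_inv]
    rw [e1, tw i, tc i, inv_one, mul_one, mul_one] at h1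
    exact h1
  have tV : ∀ i, φ (kch d s i V') = 1 := by
    intro i
    have h1 := tw i
    rw [map_inv, map_inv, map_mul, map_mul, tX i, one_mul, inv_eq_one] at h1
    exact h1
  refine ⟨fun y => ?_, tk⟩
  have h1 : NT n s {X, V, c} ≤ φ.ker.map d.ker.subtype := by
    unfold NT
    rw [Subgroup.closure_le]
    rintro _ ⟨t, ht, i, rfl⟩
    rcases ht with rfl | rfl | rfl
    · exact ⟨kch d s i X', tX i, rfl⟩
    · exact ⟨kch d s i V', tV i, rfl⟩
    · exact ⟨kch d s i C', tc i, rfl⟩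
  have dT : ∀ t ∈ ({X, V, c} : Set G), d t = 1 := by
    rintro t (rfl | rfl | rfl) <;> assumption
  obtain ⟨g', hg', hgg⟩ := h1 (ker_le_NT hn hs hgen d ds dT y.2)
  have : g' = y := Subtype.ext hgg
  rw [← this]; exact hg'

end act

end Pool.Agent.U541.SP
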